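import Pool.Agent.MWLQ.StmtsB

/-!
# MWLQ, row CLC: the closure properties (twin of helper44's row of MWLE)
-/

namespace Pool.Agent.MWLQ.H45

open Pool.Agent.Helper14_MV
open Pool.Agent.Helper2_MV (RR)
open Pool.Agent.MWLQ
open Pool.Agent.MWGN (nn Tau gh)
open Pool.Agent.MWGQ (pw Z Gn E0 A0 P0)
open Pool.Agent.MWLE (pin sep con tl tll Sg t1 Fc Fb Fy Fx Fu Fz rz sf k0)

theorem fmrep (f : ℕ → List ℕ) (a : ℕ) : ∀ k : ℕ,
    (List.replicate k a).flatMap f = pw k (f a)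
  | 0 => by simp [pw]
  | k + 1 => by
    rw [List.replicate_succ, List.flatMap_cons, fmrep f a k]
    simp [pw, List.replicate_succ]

theorem kk_tr {n : ℕ} {β : FIC} {σ : List ℕ} {m e : ℕ} {W W' : List ℕ}
    (h : RR β (W.flatMap (psi n e)) (W'.flatMap (psi n e))) :
    KK n β σ m e W ↔ KK n β σ m e W' :=
  ⟨fun h1 => β.trans (β.symm h) h1, fun h1 => β.trans h h1⟩

theorem wd_false (n : ℕ) (σ : List ℕ) (m : ℕ) (g : Bool) (f : ℕ → List ℕ) (p q : List ℕ) :
    p ++ ((wd n σ m false g).flatMap f ++ q) = (p ++ (N0 n m).flatMap f) ++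
      (f 0 ++ (((Nx n m g ++ [0]) ++ tl σ).flatMap f ++ q)) := by
  have e : wd n σ m false g = N0 n m ++ ([0] ++ ((Nx n m g ++ [0]) ++ tl σ)) := by
    show (N0 n m ++ ([0] ++ (Nx n m g ++ [0]))) ++ tl σ = _
    simp only [List.append_assoc]
  have e2 : ([0] : List ℕ).flatMap f = f 0 := by simp
  rw [e, List.flatMap_append, List.flatMap_append, e2]
  simp only [List.append_assoc]

theorem wd_true (n : ℕ) (σ : List ℕ) (m : ℕ) (g : Bool) (f : ℕ → List ℕ) (p q : List ℕ) :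
    p ++ ((wd n σ m true g).flatMap f ++ q) = (p ++ (N0 n m).flatMap f) ++
      (pw (n + 1) (f 0) ++ (((Nx n m g ++ [0]) ++ tl σ).flatMap f ++ q)) := by
  have e : wd n σ m true g = N0 n m ++ (List.replicate (n + 1) 0 ++
      ((Nx n m g ++ [0]) ++ tl σ)) := by
    show (N0 n m ++ (List.replicate (n + 1) 0 ++ (Nx n m g ++ [0]))) ++ tl σ = _
    simp only [List.append_assoc]
  rw [e, List.flatMap_append, List.flatMap_append, fmrep]
  simp only [List.append_assoc]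

/-- the power of the image of `x` -/
theorem dbx (hVvd : VvdStmt) {n : ℕ} {β : FIC} (hz : Gn n β) {σ : List ℕ} {m : ℕ} {g : Bool}
    {f : ℕ → List ℕ} {p q : List ℕ} {e : ℕ}
    (h : ∀ c ∈ f 0, c % 5 = 4 ∨ c = e ∨ c ∈ p ++ (N0 n m).flatMap f) :
    KK n β σ m e (p ++ ((wd n σ m false g).flatMap f ++ q)) ↔
      KK n β σ m e (p ++ ((wd n σ m true g).flatMap f ++ q)) := by
  apply kk_tr
  rw [wd_false, wd_true]
  exact hVvd n β hz e _ _ _ h

/-- **CLC** -/
theorem clc (hKfb : KfbStmt) (hGdb : GdbStmt) (hGdc : GdcStmt) (hGda : GdaStmt) (hClb : ClbStmt)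
    (hVvd : VvdStmt) (hFsf : FsfStmt) : ClcStmt := by
  intro n β hz hE hF σ τ m hτ hσ hB hL f p q
  have hn := hz.pos
  have kfb := hKfb n β hz hE (hFsf n β hz hF) σ τ m hτ hσ hB hL
  have h2 : ∀ g : Bool, KK n β σ m 0 (p ++ ((wd n σ m false g).flatMap f ++ q)) ↔
      KK n β σ m 0 (p ++ ((wd n σ m true g).flatMap f ++ q)) := by
    intro g
    constructor
    · intro h
      exact (dbx hVvd hz (hGdc n hn σ τ m hσ false g f p q ((kfb _).2 h))).1 h
    · intro h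
      exact (dbx hVvd hz (hGdc n hn σ τ m hσ true g f p q ((kfb _).2 h))).2 h
  refine ⟨?_, h2, ?_⟩
  · constructor
    · intro h
      exact (kk_tr (hClb n β hz hF σ τ m hσ f p q
        (hGdb n hn σ τ m hσ false f p q ((kfb _).1 h)))).1 h
    · intro h
      exact (kk_tr (hClb n β hz hF σ τ m hσ f p q
        (hGdb n hn σ τ m hσ true f p q ((kfb _).1 h)))).2 h
  · constructor
    · rintro ⟨ha, hb⟩
      refine ⟨?_, (h2 true).1 hb⟩
      exact (dbx hVvd hz (hGda n hn σ τ m hσ false f p q ((kfb _).1 ha) ((kfb _).2 hb))).1 ha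
    · rintro ⟨ha, hb⟩
      refine ⟨?_, (h2 true).2 hb⟩
      exact (dbx hVvd hz (hGda n hn σ τ m hσ true f p q ((kfb _).1 ha) ((kfb _).2 hb))).2 ha

end Pool.Agent.MWLQ.H45
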